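import Mathlib
import Pool.Agent.Q182.MKDefs
import Pool.Agent.Q182.MKTop

/-!
# No metrizable precompact Mackey group topology on the integers without proper open subgroups
-/

namespace Pool.Agent.Results.MP_44d3b9_gt.NoMackeyNoOpen

open Q182

/-- There is no group topology on `ℤ` that is metrizable, precompact, Mackey (among the Hausdorff
locally quasi-convex group topologies) and has no proper open subgroup. -/
theorem result :
    ¬ ∃ τ : TopologicalSpace ℤ, @IsTopologicalAddGroup ℤ τ _ ∧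
      @TopologicalSpace.MetrizableSpace ℤ τ ∧ IsPrecompact τ ∧ IsMackeyHausdorff τ ∧
        ∀ n : ℤ, |n| ≠ 1 → ¬ @IsOpen ℤ τ (AddSubgroup.zmultiples n : Set ℤ) := by
  rintro ⟨τ, -, hmet, hpre, ⟨hlqc, -, hM⟩, -⟩
  obtain ⟨σ, hσ, hσ2, hchars, hnot⟩ := MK.exists_compatible τ hlqc hmet hpre
  exact hnot (hM σ hσ hσ2 hchars)

end Pool.Agent.Results.MP_44d3b9_gt.NoMackeyNoOpen
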